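import Mathlib
import Pool.Agent.P8H15.FG.Stm2

/-!
Package BVL of project FG (helper5): the sum of `b_k(n) log n`. With `log n = ∑_p v_p(n) log p` the sum
is `∑_p log p ∑_n b(n) v_p(n)`, and `∑_n b(n) v_p(n) = (b(p) + 2 b(p²)) V`, where `V` is the sum of the
`b(n)` with `p ∤ n`.
-/

set_option autoImplicit false
set_option linter.all false

namespace Pool.Agent.P8H5.FG

open Finset ArithmeticFunction
open Pool.Agent.H560R3.GB (sing C₂)
open Pool.Agent.P8H15.FG

theorem bb_zero (k : ℕ) : bb k 0 = 0 := by
  unfold bb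
  rw [if_pos rfl]

theorem bb_mul (k : ℕ) {x y : ℕ} (hx : x ≠ 0) (hy : y ≠ 0) (h : Nat.Coprime x y) :
    bb k (x * y) = bb k x * bb k y := by
  unfold bb
  rw [if_neg (mul_ne_zero hx hy), if_neg hx, if_neg hy, h.primeFactors_mul,
    prod_union h.disjoint_primeFactors]
  congr 1
  · refine prod_congr rfl fun p hp => ?_
    rw [Nat.factorization_eq_of_coprime_left h (Nat.mem_primeFactors_iff_mem_primeFactorsList.1 hp)]
  · refine prod_congr rfl fun p hp => ?_
    rw [Nat.factorization_eq_of_coprime_right h (Nat.mem_primeFactors_iff_mem_primeFactorsList.1 hp)]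

theorem bb_one (k : ℕ) : bb k 1 = 1 := by
  unfold bb
  simp

theorem bb_pow (k : ℕ) {p a : ℕ} (hp : p.Prime) (ha : a ≠ 0) : bb k (p ^ a) = bp k p a := by
  unfold bb
  rw [if_neg (pow_ne_zero _ hp.ne_zero), Nat.primeFactors_prime_pow ha hp, prod_singleton,
    hp.factorization_pow, Finsupp.single_eq_same]

theorem bb_vanish (k : ℕ) {p n : ℕ} (h : 3 ≤ n.factorization p) : bb k n = 0 := by
  unfold bb
  split_ifs with hn
  · rfl
  refine prod_eq_zero (i := p) ?_ ?_
  · rw [← Nat.support_factorization, Finsupp.mem_support_iff]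
    omega
  · unfold bp
    have h1 : n.factorization p ≠ 1 := by omega
    have h2 : n.factorization p ≠ 2 := by omega
    simp [h1, h2]

/-- the sum of the `b(n)` with `v_p(n) = a` -/
noncomputable def VV (k p a : ℕ) : ℝ := ∑' n : ℕ, if n.factorization p = a then bb k n else 0

theorem VV_eq (k : ℕ) {p : ℕ} (hp : p.Prime) (a : ℕ) : VV k p a = bb k (p ^ a) * VV k p 0 := by
  have hpa : p ^ a ≠ 0 := pow_ne_zero _ hp.ne_zero
  have hinj : Function.Injective (fun m : ℕ => p ^ a * m) := fun x y h =>
    Nat.eq_of_mul_eq_mul_left (Nat.pos_of_ne_zero hpa) h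
  have hsup : Function.support (fun n : ℕ => if n.factorization p = a then bb k n else 0) ⊆
      Set.range (fun m : ℕ => p ^ a * m) := by
    intro n hn
    rw [Function.mem_support] at hn
    have h1 : n.factorization p = a := by
      by_contra h
      exact hn (if_neg h)
    obtain ⟨m, hm⟩ := Nat.ordProj_dvd n p
    rw [h1] at hm
    exact ⟨m, hm.symm⟩
  unfold VV
  rw [← hinj.tsum_eq hsup, ← tsum_mul_left]
  refine tsum_congr fun m => ?_
  rcases eq_or_ne m 0 with rfl | hm
  · simp [bb_zero]
  have h1 : (p ^ a * m).factorization p = a + m.factorization p := by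
    rw [Nat.factorization_mul hpa hm, Finsupp.add_apply, hp.factorization_pow,
      Finsupp.single_eq_same]
  simp only [h1]
  by_cases h2 : m.factorization p = 0
  · rw [if_pos (by omega), if_pos h2]
    have h3 : ¬ p ∣ m := by
      intro h
      have := (hp.dvd_iff_one_le_factorization hm).1 h
      omega
    exact bb_mul k hpa hm (Nat.Coprime.pow_left _ ((Nat.Prime.coprime_iff_not_dvd hp).2 h3))
  · rw [if_neg (by omega), if_neg h2, mul_zero]

theorem bvl : S_BABS → S_BV01 → S_BVL := by
  intro hA h01 k hk hke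
  obtain ⟨C, hC, hA⟩ := hA
  obtain ⟨hS, -⟩ := hA k hk hke
  obtain ⟨hs1, -⟩ := h01 k hk hke
  -- summability
  have hrp : ∀ n : ℕ, 1 ≤ n → (1 : ℝ) ≤ (n : ℝ) ^ (1 / 4 : ℝ) := fun n hn =>
    Real.one_le_rpow (by exact_mod_cast hn) (by norm_num)
  have hlog : ∀ n : ℕ, 1 ≤ n → Real.log n ≤ 4 * (n : ℝ) ^ (1 / 4 : ℝ) := by
    intro n hn
    have hn0 : (0 : ℝ) < n := by exact_mod_cast hn
    have h1 := Real.log_le_sub_one_of_pos (x := (n : ℝ) ^ (1 / 4 : ℝ)) (by positivity)
    rw [Real.log_rpow hn0] at h1
    linarith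
  have hsum : Summable (bb k) := by
    refine Summable.of_norm_bounded hS fun n => ?_
    rcases Nat.eq_zero_or_pos n with rfl | hn
    · simp [bb_zero]
    · rw [Real.norm_eq_abs]
      exact le_mul_of_one_le_right (abs_nonneg _) (hrp n hn)
  have hsl : Summable (fun n : ℕ => |bb k n| * Real.log n) := by
    refine Summable.of_nonneg_of_le (fun n => mul_nonneg (abs_nonneg _) (Real.log_natCast_nonneg n))
      (fun n => ?_) (hS.mul_left 4)
    rcases Nat.eq_zero_or_pos n with rfl | hn
    · simp [bb_zero]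
    · calc |bb k n| * Real.log n ≤ |bb k n| * (4 * (n : ℝ) ^ (1 / 4 : ℝ)) :=
          mul_le_mul_of_nonneg_left (hlog n hn) (abs_nonneg _)
        _ = _ := by ring
  have hsa : ∀ p a : ℕ, Summable fun n : ℕ => if n.factorization p = a then bb k n else 0 := by
    intro p a
    refine Summable.of_norm_bounded hsum.norm fun n => ?_
    split_ifs
    · exact le_rfl
    · rw [norm_zero]
      exact norm_nonneg _
  have hdec : ∀ p n : ℕ, bb k n = (if n.factorization p = 0 then bb k n else 0) +
      (if n.factorization p = 1 then bb k n else 0) +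
      (if n.factorization p = 2 then bb k n else 0) := by
    intro p n
    rcases Nat.lt_or_ge (n.factorization p) 3 with h | h
    · interval_cases hv : n.factorization p <;> simp
    · rw [bb_vanish k h]
      simp
  have hdec2 : ∀ p n : ℕ, bb k n * (n.factorization p : ℝ) =
      (if n.factorization p = 1 then bb k n else 0) +
      2 * (if n.factorization p = 2 then bb k n else 0) := by
    intro p n
    rcases Nat.lt_or_ge (n.factorization p) 3 with h | h
    · interval_cases hv : n.factorization p <;> simp [mul_comm]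
    · rw [bb_vanish k h]
      simp
  -- the two sums
  have hT : ∀ p : ℕ, ∑' n, bb k n = VV k p 0 + VV k p 1 + VV k p 2 := by
    intro p
    unfold VV
    rw [← (hsa p 0).tsum_add (hsa p 1), ← ((hsa p 0).add (hsa p 1)).tsum_add (hsa p 2)]
    exact tsum_congr fun n => hdec p n
  have hT2 : ∀ p : ℕ, ∑' n, bb k n * (n.factorization p : ℝ) = VV k p 1 + 2 * VV k p 2 := by
    intro p
    unfold VV
    rw [← tsum_mul_left, ← (hsa p 1).tsum_add ((hsa p 2).mul_left 2)]
    exact tsum_congr fun n => hdec2 p n
  set S := ∑' n, bb k n with hSdef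
  have hval : ∀ p : ℕ, p.Prime → ∑' n, bb k n * (n.factorization p : ℝ) =
      if p ∣ k then - (S / ((p : ℝ) - 1)) else 0 := by
    intro p hp
    have hp2 : (2 : ℝ) ≤ p := by exact_mod_cast hp.two_le
    have hp1 : (p : ℝ) - 1 ≠ 0 := by linarith
    have hp0 : (p : ℝ) ≠ 0 := by linarith
    rw [hT2, VV_eq k hp 1, VV_eq k hp 2, bb_pow k hp one_ne_zero, bb_pow k hp two_ne_zero]
    have h3 := hT p
    rw [VV_eq k hp 1, VV_eq k hp 2, bb_pow k hp one_ne_zero, bb_pow k hp two_ne_zero] at h3
    split_ifs with hd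
    · have e1 : bp k p 1 = -1 / (p : ℝ) := by simp [bp, hd]
      have e2 : bp k p 2 = 0 := by simp [bp, hd]
      rw [e1, e2] at h3 ⊢
      rw [h3]
      field_simp
      ring
    · have e1 : bp k p 1 = 2 / ((p : ℝ) * (p - 2)) := by simp [bp, hd]
      have e2 : bp k p 2 = -1 / ((p : ℝ) * (p - 2)) := by simp [bp, hd]
      rw [e1, e2]
      ring
  -- exchange of the sums
  have hfs : ∀ n : ℕ, HasSum (fun p : ℕ => (n.factorization p : ℝ) * Real.log p) (Real.log n) := by
    intro n
    rw [Real.log_nat_eq_sum_factorization n]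
    refine hasSum_sum_of_ne_finset_zero fun p hp => ?_
    rw [Finsupp.notMem_support_iff.1 hp]
    simp
  have hprod : Summable (Function.uncurry fun n p : ℕ =>
      bb k n * ((n.factorization p : ℝ) * Real.log p)) := by
    refine Summable.of_norm ?_
    rw [summable_prod_of_nonneg (fun _ => norm_nonneg _)]
    have e : ∀ n p : ℕ, ‖Function.uncurry (fun n p : ℕ =>
        bb k n * ((n.factorization p : ℝ) * Real.log p)) (n, p)‖ =
        |bb k n| * ((n.factorization p : ℝ) * Real.log p) := by
      intro n p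
      show ‖bb k n * ((n.factorization p : ℝ) * Real.log p)‖ = _
      rw [norm_mul, Real.norm_eq_abs, Real.norm_of_nonneg
        (mul_nonneg (Nat.cast_nonneg _) (Real.log_natCast_nonneg p))]
    simp only [e]
    refine ⟨fun n => ((hfs n).summable).mul_left _, ?_⟩
    have e2 : ∀ n : ℕ, ∑' p : ℕ, |bb k n| * ((n.factorization p : ℝ) * Real.log p) =
        |bb k n| * Real.log n := by
      intro n
      rw [tsum_mul_left, (hfs n).tsum_eq]
    simp only [e2]
    exact hsl
  have hL : ∑' n : ℕ, bb k n * Real.log n =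
      ∑' p : ℕ, ∑' n : ℕ, bb k n * ((n.factorization p : ℝ) * Real.log p) := by
    rw [hprod.tsum_comm]
    refine tsum_congr fun n => ?_
    rw [tsum_mul_left, (hfs n).tsum_eq]
  have hin : ∀ p : ℕ, ∑' n : ℕ, bb k n * ((n.factorization p : ℝ) * Real.log p) =
      if p ∈ k.primeFactors then - (S * (Real.log p / ((p : ℝ) - 1))) else 0 := by
    intro p
    have e3 : ∑' n : ℕ, bb k n * ((n.factorization p : ℝ) * Real.log p) =
        (∑' n : ℕ, bb k n * (n.factorization p : ℝ)) * Real.log p := by
      rw [← tsum_mul_right]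
      exact tsum_congr fun n => by ring
    rw [e3]
    by_cases hp : p.Prime
    · rw [hval p hp]
      by_cases hd : p ∣ k
      · rw [if_pos hd, if_pos (Nat.mem_primeFactors.2 ⟨hp, hd, by omega⟩)]
        ring
      · rw [if_neg hd, if_neg (fun h => hd (Nat.dvd_of_mem_primeFactors h)), zero_mul]
    · rw [if_neg (fun h => hp (Nat.prime_of_mem_primeFactors h))]
      have : ∀ n : ℕ, bb k n * (n.factorization p : ℝ) = 0 := by
        intro n
        rw [Nat.factorization_eq_zero_of_not_prime n hp]
        simp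
      simp [this]
  rw [hL]
  simp only [hin]
  rw [tsum_eq_sum (s := k.primeFactors) (fun p hp => if_neg hp),
    sum_congr rfl (fun p hp => if_pos hp), sum_neg_distrib, ← mul_sum, mul_neg, ← mul_assoc, hs1,
    one_mul]

end Pool.Agent.P8H5.FG
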