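import Mathlib
import Pool.Agent.P8H15.FG.Stm
import Pool.Agent.H442R2.EHI.PntErr

/-!
Package PNTL of project FG (helper5): the prime number theorem with any power of the logarithm.
-/

set_option autoImplicit false

namespace Pool.Agent.P8H5.FG

open Finset ArithmeticFunction
open Pool.Agent.P8H15.FG

theorem psi_nat (X : ℕ) : Chebyshev.psi (X : ℝ) = ∑ n ∈ Icc 1 X, vonMangoldt n := by
  unfold Chebyshev.psi
  rw [Nat.floor_natCast]
  refine sum_congr ?_ fun _ _ => rfl
  ext n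
  simp only [mem_Ioc, mem_Icc]
  omega

theorem pntl : S_PNTL := by
  intro A
  obtain ⟨C, hC, h⟩ := Pool.Agent.H442R2.EHI.PntErrAux.thetaU A
  obtain ⟨C1, h1⟩ := Chebyshev.psi_sub_theta_le_mul_sqrt
  obtain ⟨C2, hC2, h2⟩ := Pool.Agent.H442R2.EHI.PntErrAux.log_pow_le A
  refine ⟨C + |C1| * C2, by positivity, fun N hN => ?_⟩
  rw [← psi_nat]
  have hN0 : (0 : ℝ) < N := by exact_mod_cast (by omega : 0 < N)
  have hL : 0 < Real.log N := Real.log_pos (by exact_mod_cast (by omega : 1 < N))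
  have hss := Real.mul_self_sqrt hN0.le
  have hsq : √(N : ℝ) ≤ C2 * (N / Real.log N ^ A) := by
    rw [← mul_div_assoc, le_div_iff₀ (by positivity)]
    calc √(N : ℝ) * Real.log N ^ A ≤ √(N : ℝ) * (C2 * √(N : ℝ)) := by
          gcongr; exact h2 N (by omega)
      _ = C2 * (√(N : ℝ) * √(N : ℝ)) := by ring
      _ = _ := by rw [hss]
  have hpt := h1 N
  have hpt0 := Chebyshev.theta_le_psi N
  have hC1 : C1 * √(N : ℝ) ≤ |C1| * √(N : ℝ) :=
    mul_le_mul_of_nonneg_right (le_abs_self C1) (by positivity)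
  have hC3 : |C1| * √(N : ℝ) ≤ |C1| * (C2 * (N / Real.log N ^ A)) :=
    mul_le_mul_of_nonneg_left hsq (abs_nonneg _)
  have h3 := h N hN
  have e : (C + |C1| * C2) * N / Real.log N ^ A =
      C * (N / Real.log N ^ A) + |C1| * (C2 * (N / Real.log N ^ A)) := by ring
  rw [e]
  rw [abs_le] at h3 ⊢
  have hq : 0 ≤ |C1| * (C2 * (N / Real.log N ^ A)) := by positivity
  constructor <;> linarith [h3.1, h3.2]

end Pool.Agent.P8H5.FG
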