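import Mathlib
import Pool.Agent.P8H15.FG.Stm

/-!
Package LAM2 of project FG (helper5): the sum of the squares of the von Mangoldt function.
-/

set_option autoImplicit false

namespace Pool.Agent.P8H5.FG

open Finset ArithmeticFunction
open Pool.Agent.P8H15.FG

theorem psi_nat' (X : ℕ) : Chebyshev.psi (X : ℝ) = ∑ n ∈ Icc 1 X, vonMangoldt n := by
  unfold Chebyshev.psi
  rw [Nat.floor_natCast]
  refine sum_congr ?_ fun _ _ => rfl
  ext n
  simp only [mem_Ioc, mem_Icc]
  omega

/-- Abel summation. -/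
theorem abel_log : ∀ X : ℕ, 1 ≤ X →
    0 ≤ Chebyshev.psi (X : ℝ) * Real.log X - ∑ n ∈ Icc 1 X, vonMangoldt n * Real.log n ∧
    Chebyshev.psi (X : ℝ) * Real.log X - ∑ n ∈ Icc 1 X, vonMangoldt n * Real.log n ≤
      (Real.log 4 + 4) * X := by
  intro X hX
  have h4 : 0 ≤ Real.log 4 := Real.log_nonneg (by norm_num)
  induction X, hX using Nat.le_induction with
  | base =>
    simp
    linarith
  | succ X hX ih =>
    have e1 : Chebyshev.psi ((X + 1 : ℕ) : ℝ) = Chebyshev.psi (X : ℝ) + vonMangoldt (X + 1) := by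
      rw [psi_nat', psi_nat', sum_Icc_succ_top (by omega)]
    have e2 : ∑ n ∈ Icc 1 (X + 1), vonMangoldt n * Real.log n =
        ∑ n ∈ Icc 1 X, vonMangoldt n * Real.log n +
          vonMangoldt (X + 1) * Real.log ((X + 1 : ℕ) : ℝ) := by
      rw [sum_Icc_succ_top (by omega)]
    rw [e1, e2]
    have hX0 : (0 : ℝ) < X := by exact_mod_cast hX
    have hψ := Chebyshev.psi_le_const_mul_self hX0.le
    have hψ0 := Chebyshev.psi_nonneg (X : ℝ)
    have hl : Real.log ((X + 1 : ℕ) : ℝ) - Real.log X ≤ 1 / X := by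
      rw [← Real.log_div (by positivity) (by positivity)]
      have h5 := Real.log_le_sub_one_of_pos (x := ((X + 1 : ℕ) : ℝ) / X) (by positivity)
      refine h5.trans (le_of_eq ?_)
      push_cast
      field_simp
      ring
    have hl0 : 0 ≤ Real.log ((X + 1 : ℕ) : ℝ) - Real.log X := by
      have : Real.log X ≤ Real.log ((X + 1 : ℕ) : ℝ) :=
        Real.log_le_log hX0 (by exact_mod_cast Nat.le_succ X)
      linarith
    have hp : Chebyshev.psi (X : ℝ) * (Real.log ((X + 1 : ℕ) : ℝ) - Real.log X) ≤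
        Real.log 4 + 4 := by
      calc _ ≤ (Real.log 4 + 4) * X * (1 / X) := by gcongr
        _ = _ := by field_simp
    have hp0 : 0 ≤ Chebyshev.psi (X : ℝ) * (Real.log ((X + 1 : ℕ) : ℝ) - Real.log X) :=
      mul_nonneg hψ0 hl0
    push_cast at hp hp0 ⊢
    constructor <;> nlinarith [ih.1, ih.2]

theorem lam2 : S_PNTL → S_LAM2 := by
  intro hP
  obtain ⟨C, hC, h⟩ := hP 1
  obtain ⟨C1, h1⟩ := Chebyshev.psi_sub_theta_le_mul_sqrt
  have h4 : 0 ≤ Real.log 4 := Real.log_nonneg (by norm_num)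
  refine ⟨C + (Real.log 4 + 4) + 2 * |C1|, by positivity, fun X hX => ?_⟩
  have hX0 : (0 : ℝ) < X := by exact_mod_cast (by omega : 0 < X)
  have hL : 0 < Real.log X := Real.log_pos (by exact_mod_cast (by omega : 1 < X))
  have hh := h X hX
  rw [← psi_nat', pow_one] at hh
  obtain ⟨a1, a2⟩ := abel_log X (by omega)
  -- the prime powers
  have hd : ∑ n ∈ Icc 1 X, vonMangoldt n * Real.log n - ∑ n ∈ Icc 1 X, vonMangoldt n ^ 2 =
      ∑ n ∈ Icc 1 X, vonMangoldt n * (Real.log n - vonMangoldt n) := by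
    rw [← sum_sub_distrib]
    refine sum_congr rfl fun n _ => ?_
    ring
  have hd0 : 0 ≤ ∑ n ∈ Icc 1 X, vonMangoldt n * (Real.log n - vonMangoldt n) :=
    sum_nonneg fun n _ => mul_nonneg vonMangoldt_nonneg (sub_nonneg.2 vonMangoldt_le_log)
  have hd1 : ∑ n ∈ Icc 1 X, vonMangoldt n * (Real.log n - vonMangoldt n) ≤
      Real.log X * (Chebyshev.psi (X : ℝ) - Chebyshev.theta (X : ℝ)) := by
    rw [Chebyshev.psi_sub_theta_eq_sum_not_prime, Nat.floor_natCast, mul_sum]
    have hI : Icc 1 X = Ioc 0 X := by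
      ext n
      simp only [mem_Ioc, mem_Icc]
      omega
    rw [hI, sum_filter]
    refine sum_le_sum fun n hn => ?_
    rw [mem_Ioc] at hn
    split_ifs with hp
    · rw [vonMangoldt_apply_prime hp, sub_self, mul_zero]
    · have h5 : Real.log n ≤ Real.log X :=
        Real.log_le_log (by exact_mod_cast hn.1) (by exact_mod_cast hn.2)
      have h6 : 0 ≤ vonMangoldt n := vonMangoldt_nonneg
      nlinarith
  have hlog : Real.log X ≤ 2 * √(X : ℝ) := by
    have h5 := Real.log_le_sub_one_of_pos (x := √(X : ℝ)) (by positivity)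
    rw [Real.log_sqrt hX0.le] at h5
    linarith
  have hd2 : Real.log X * (Chebyshev.psi (X : ℝ) - Chebyshev.theta (X : ℝ)) ≤ 2 * |C1| * X := by
    have h5 := h1 X
    have h6 : C1 * √(X : ℝ) ≤ |C1| * √(X : ℝ) :=
      mul_le_mul_of_nonneg_right (le_abs_self C1) (by positivity)
    calc _ ≤ Real.log X * (|C1| * √(X : ℝ)) := by
          refine mul_le_mul_of_nonneg_left (h5.trans h6) hL.le
      _ ≤ 2 * √(X : ℝ) * (|C1| * √(X : ℝ)) := by gcongr
      _ = 2 * |C1| * (√(X : ℝ) * √(X : ℝ)) := by ring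
      _ = _ := by rw [Real.mul_self_sqrt hX0.le]
  have hm : |Chebyshev.psi (X : ℝ) * Real.log X - X * Real.log X| ≤ C * X := by
    rw [← sub_mul, abs_mul, abs_of_pos hL]
    calc _ ≤ C * X / Real.log X * Real.log X := by gcongr
      _ = _ := by field_simp
  rw [abs_le] at hm ⊢
  constructor <;> nlinarith [hm.1, hm.2]

end Pool.Agent.P8H5.FG
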